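import Pool.Agent.Helper81.OWN.Base

set_option autoImplicit false
open MeasureTheory Set ComplexConjugate
open Pool.Agent.Helper71 (chi ex conj_chi norm_chi_le measurable_chi chi_of_mem chi_of_notMem
  norm_ex continuous_ex g)

namespace Pool.Agent.Helper81.OWN

lemma win_conj : ∀ (n : ℕ) (x : Fin (n + 2) → ℝ), conj (win n x) = win n x
  | 0, x => Pool.Agent.Helper71.conj_g _
  | n + 1, x => by rw [win, map_mul, conj_chi, win_conj n]

lemma win_measurable : ∀ n : ℕ, Measurable (win n)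
  | 0 => Pool.Agent.Helper71.measurable_g.comp (MeasurableEquiv.toLp 2 (Fin 2 → ℝ)).measurable
  | n + 1 => by
      have : win (n + 1) = fun x : Fin (n + 3) → ℝ => chi (x (Fin.last _)) * win n (fun i => x i.castSucc) := rfl
      rw [this]
      refine (measurable_chi.comp (measurable_pi_apply _)).mul ((win_measurable n).comp ?_)
      exact measurable_pi_lambda _ (fun i => measurable_pi_apply _)

lemma win_bound : ∀ (n : ℕ) (x : Fin (n + 2) → ℝ), ‖win n x‖ ≤ 4
  | 0, x => Pool.Agent.Helper71.g_bound _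
  | n + 1, x => by
      rw [win, norm_mul]
      have h1 := norm_chi_le (x (Fin.last _))
      have h2 := win_bound n (fun i => x i.castSucc)
      calc _ ≤ 1 * 4 := mul_le_mul h1 h2 (norm_nonneg _) zero_le_one
        _ = 4 := one_mul _

lemma g_zero_of (x : Fin 2 → ℝ) (i : Fin 2) (hx : x i ∉ Icc (0:ℝ) 2) : g (WithLp.toLp 2 x) = 0 := by
  have c0 : chi (x i) = 0 := by
    apply chi_of_notMem
    intro h
    exact hx ⟨h.1.le, by linarith [h.2]⟩
  have c1 : chi (x i - 1) = 0 := by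
    apply chi_of_notMem
    intro h
    exact hx ⟨by linarith [h.1], by linarith [h.2]⟩
  fin_cases i
  · simp only [Fin.zero_eta] at c0 c1
    simp [g, Fin.sum_univ_two, c0, c1]
  · simp only [Fin.mk_one] at c0 c1
    simp [g, Fin.sum_univ_two, c0, c1]

lemma win_support : ∀ (n : ℕ) (x : Fin (n + 2) → ℝ) (i : Fin (n + 2)), x i ∉ Icc (0:ℝ) 2 → win n x = 0
  | 0, x, i, h => g_zero_of x i h
  | n + 1, x, i, h => by
      rw [win]
      induction i using Fin.lastCases with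
      | last =>
        rw [chi_of_notMem, zero_mul]
        intro h'
        exact h ⟨h'.1.le, by linarith [h'.2]⟩
      | cast j =>
        rw [win_support n (fun i => x i.castSucc) j h, mul_zero]

lemma win_cell0 : ∀ (n : ℕ) (x : Fin (n + 2) → ℝ), (∀ i, 0 < x i ∧ x i < 1) → ‖win n x‖ = 1/10
  | 0, x, h => by
      apply Pool.Agent.Helper71.g_cell0
      refine ⟨⟨(h 0).1, ?_⟩, (h 1).1, (h 1).2⟩
      have := (h 0).2
      simpa using this
  | n + 1, x, h => by
      rw [win, chi_of_mem ⟨(h _).1, (h _).2.le⟩, one_mul]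
      exact win_cell0 n _ (fun i => h _)

lemma win_cell1 : ∀ (n : ℕ) (x : Fin (n + 2) → ℝ), (1 < x 0 ∧ x 0 < 2) →
    (∀ i, i ≠ 0 → 0 < x i ∧ x i < 1) → ‖win n x‖ = 7/10
  | 0, x, h0, h => by
      apply Pool.Agent.Helper71.g_cell1
      refine ⟨⟨h0.1, ?_⟩, (h 1 (by simp)).1, (h 1 (by simp)).2⟩
      have := h0.2
      change x 0 < 1 + 1
      linarith
  | n + 1, x, h0, h => by
      have hl := h (Fin.last _) (by simp [Fin.ext_iff])
      rw [win, chi_of_mem ⟨hl.1, hl.2.le⟩, one_mul]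
      refine win_cell1 n _ ?_ ?_
      · simpa using h0
      · intro i hi
        apply h
        intro h'
        apply hi
        have : (i.castSucc : Fin (n + 3)).val = (0 : Fin (n + 3)).val := by rw [h']
        exact Fin.ext (by simpa using this)

abbrev EE (n : ℕ) := EuclideanSpace ℝ (Fin n)

/-- the window on the Euclidean space -/
noncomputable def gw (n : ℕ) (x : EE (n + 2)) : ℂ := win n (fun i => x i)

lemma gw_compact (n : ℕ) : HasCompactSupport (gw n) := by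
  have hK : IsCompact (WithLp.toLp 2 '' (Set.pi univ (fun _ : Fin (n + 2) => Icc (0:ℝ) 2)) : Set (EE (n + 2))) :=
    (isCompact_univ_pi (fun _ => isCompact_Icc)).image (PiLp.continuous_toLp 2 _)
  refine HasCompactSupport.intro hK ?_
  intro x hx
  by_contra hne
  apply hx
  refine ⟨fun i => x i, ?_, rfl⟩
  intro i _
  by_contra hi
  exact hne (win_support n _ i hi)

lemma gw_memLp (n : ℕ) : MemLp (gw n) 2 volume := by
  refine (gw_compact n).memLp_of_bound ?_ 4 (Filter.Eventually.of_forall (fun x => win_bound n _))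
  exact ((win_measurable n).comp (MeasurableEquiv.toLp 2 (Fin (n + 2) → ℝ)).symm.measurable).aestronglyMeasurable

lemma gw_real (n : ℕ) (x : EE (n + 2)) : (gw n x).im = 0 :=
  Complex.conj_eq_iff_im.1 (win_conj n _)

lemma gw_not_indicator (n : ℕ) (Ω : Set (EE (n + 2))) (c : ℝ) :
    ¬ ∀ᵐ x ∂(volume : Measure (EE (n + 2))), ‖gw n x‖ = c * Ω.indicator (fun _ => (1 : ℝ)) x := by
  intro h
  have hd := Measure.dense_of_ae h
  have hc : ∀ i : Fin (n + 2), Continuous (fun v : EE (n + 2) => v i) := by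
    intro i
    fun_prop
  have o0 : IsOpen {v : EE (n + 2) | ∀ i, 0 < v i ∧ v i < 1} := by
    have : {v : EE (n + 2) | ∀ i, 0 < v i ∧ v i < 1} = ⋂ i, {v : EE (n + 2) | 0 < v i ∧ v i < 1} := by
      ext v
      simp
    rw [this]
    exact isOpen_iInter_of_finite (fun i => (isOpen_lt continuous_const (hc i)).inter
      (isOpen_lt (hc i) continuous_const))
  have o1 : IsOpen {v : EE (n + 2) | (1 < v 0 ∧ v 0 < 2) ∧ ∀ i, i ≠ 0 → 0 < v i ∧ v i < 1} := by
    have : {v : EE (n + 2) | (1 < v 0 ∧ v 0 < 2) ∧ ∀ i, i ≠ 0 → 0 < v i ∧ v i < 1} =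
      {v : EE (n + 2) | 1 < v 0 ∧ v 0 < 2} ∩ ⋂ i, {v : EE (n + 2) | i ≠ 0 → 0 < v i ∧ v i < 1} := by
      ext v
      simp
    rw [this]
    refine ((isOpen_lt continuous_const (hc 0)).inter (isOpen_lt (hc 0) continuous_const)).inter
      (isOpen_iInter_of_finite (fun i => ?_))
    by_cases hi : i = 0
    · simp [hi]
    · simp only [ne_eq, hi, not_false_eq_true, forall_const]
      exact (isOpen_lt continuous_const (hc i)).inter (isOpen_lt (hc i) continuous_const)
  obtain ⟨x, hx, hx2⟩ := hd.exists_mem_open o0 ⟨WithLp.toLp 2 (fun _ => 1/2), fun i => by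
    change (0:ℝ) < 1/2 ∧ (1/2:ℝ) < 1
    norm_num⟩
  obtain ⟨y, hy, hy2⟩ := hd.exists_mem_open o1
    ⟨WithLp.toLp 2 (fun i => if i = 0 then 3/2 else 1/2), by
      refine ⟨?_, fun i hi => ?_⟩
      · change (1:ℝ) < (if (0 : Fin (n+2)) = 0 then 3/2 else 1/2) ∧ (if (0 : Fin (n+2)) = 0 then 3/2 else 1/2) < (2:ℝ)
        rw [if_pos rfl]
        norm_num
      · change (0:ℝ) < (if i = 0 then 3/2 else 1/2) ∧ (if i = 0 then 3/2 else 1/2) < (1:ℝ)
        rw [if_neg hi]
        norm_num⟩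
  simp only [Set.mem_ofPred_eq] at hx hy
  have e0 : ‖gw n x‖ = 1/10 := win_cell0 n _ hx2
  have e1 : ‖gw n y‖ = 7/10 := win_cell1 n _ hy2.1 hy2.2
  rw [e0] at hx
  rw [e1] at hy
  by_cases h1 : x ∈ Ω
  · by_cases h2 : y ∈ Ω
    · rw [indicator_of_mem h1] at hx
      rw [indicator_of_mem h2] at hy
      linarith
    · rw [indicator_of_notMem h2] at hy
      linarith
  · rw [indicator_of_notMem h1] at hx
    linarith

/-- the Gabor function -/
noncomputable def gab (n : ℕ) (t s x : EE (n + 2)) : ℂ :=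
  gw n (x - t) * Complex.exp (2 * Real.pi * Complex.I * ((@inner ℝ _ _ s x : ℝ) : ℂ))

lemma exp_inner_all {n : ℕ} (s x : EE n) :
    Complex.exp (2 * Real.pi * Complex.I * ((@inner ℝ _ _ s x : ℝ) : ℂ)) = ∏ i, ex (s i) (x i) := by
  unfold ex
  rw [← Complex.exp_sum]
  congr 1
  simp only [PiLp.inner_apply, RCLike.inner_apply, conj_trivial]
  push_cast
  rw [Finset.mul_sum]
  refine Finset.sum_congr rfl (fun i _ => ?_)
  ring

lemma onb_gab (n : ℕ) : ONB (volume : Measure (EE (n + 2)))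
    (fun (p : (Fin (n + 2) → ℤ) × (Fin (n + 2) → ℤ)) (x : EE (n + 2)) =>
      gab n (WithLp.toLp 2 (tv p.1)) (WithLp.toLp 2 (sv p.2)) x) := by
  have h := (onb_all n).comp (MeasurableEquiv.toLp 2 (Fin (n + 2) → ℝ)).symm
    ((PiLp.volume_preserving_toLp (Fin (n + 2))).symm (MeasurableEquiv.toLp 2 (Fin (n + 2) → ℝ)))
  have e : (fun (p : (Fin (n + 2) → ℤ) × (Fin (n + 2) → ℤ)) (x : EE (n + 2)) =>
      gab n (WithLp.toLp 2 (tv p.1)) (WithLp.toLp 2 (sv p.2)) x) = fun p x =>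
      sys n p ((MeasurableEquiv.toLp 2 (Fin (n + 2) → ℝ)).symm x) := by
    funext p x
    unfold gab sys
    rw [exp_inner_all]
    rfl
  rw [e]
  exact h

/-- lattices -/
def TL (d : ℕ) : Set (EE d) := {x | ∀ i, ∃ k : ℤ, x i = if (i : ℕ) = 0 then 2 * (k : ℝ) else (k : ℝ)}
def SL (d : ℕ) : Set (EE d) := {x | ∀ i, ∃ k : ℤ, x i = if (i : ℕ) = 1 then (k : ℝ) / 2 else (k : ℝ)}

lemma TL_iff {d : ℕ} (t : EE d) (ht : t ∈ TL d) : ∃ k : Fin d → ℤ, t = WithLp.toLp 2 (tv k) := by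
  choose k hk using ht
  exact ⟨k, by ext i; exact hk i⟩

lemma SL_iff {d : ℕ} (t : EE d) (ht : t ∈ SL d) : ∃ k : Fin d → ℤ, t = WithLp.toLp 2 (sv k) := by
  choose k hk using ht
  exact ⟨k, by ext i; exact hk i⟩

lemma gab_mem (n : ℕ) (p : TL (n + 2) × SL (n + 2)) : MemLp (gab n p.1.1 p.2.1) 2 volume := by
  obtain ⟨⟨t, ht⟩, ⟨s, hs⟩⟩ := p
  obtain ⟨k, rfl⟩ := TL_iff t ht
  obtain ⟨m, rfl⟩ := SL_iff s hs
  exact (onb_gab n).mem (k, m)

noncomputable def vv (n : ℕ) (p : TL (n + 2) × SL (n + 2)) : Lp ℂ 2 (volume : Measure (EE (n + 2))) :=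
  (gab_mem n p).toLp (gab n p.1.1 p.2.1)

lemma inner_vv (n : ℕ) (p q : TL (n + 2) × SL (n + 2)) : @inner ℂ _ _ (vv n p) (vv n q) =
    ∫ x, gab n q.1.1 q.2.1 x * conj (gab n p.1.1 p.2.1 x) := by
  rw [L2.inner_def]
  apply integral_congr_ae
  filter_upwards [(gab_mem n p).coeFn_toLp, (gab_mem n q).coeFn_toLp] with x h1 h2
  unfold vv
  rw [h1, h2, RCLike.inner_apply]

lemma vv_orthonormal (n : ℕ) : Orthonormal ℂ (vv n) := by
  classical
  rw [orthonormal_iff_ite]
  intro p q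
  rw [inner_vv]
  obtain ⟨⟨t, ht⟩, ⟨s, hs⟩⟩ := p
  obtain ⟨⟨t', ht'⟩, ⟨s', hs'⟩⟩ := q
  obtain ⟨k, rfl⟩ := TL_iff t ht
  obtain ⟨m, rfl⟩ := SL_iff s hs
  obtain ⟨k', rfl⟩ := TL_iff t' ht'
  obtain ⟨m', rfl⟩ := SL_iff s' hs'
  by_cases h : (k, m) = (k', m')
  · obtain ⟨rfl, rfl⟩ := Prod.mk.inj h
    rw [if_pos rfl]
    exact (onb_gab n).one (k, m)
  · rw [if_neg]
    · exact (onb_gab n).orth (k', m') (k, m) (fun e => h e.symm)
    · intro e
      apply h
      simp only [Prod.mk.injEq, Subtype.mk.injEq] at e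
      have e1 : tv k = tv k' := by
        have := e.1
        funext i
        exact congrArg (fun v : EE (n + 2) => v i) this
      have e2 : sv m = sv m' := by
        have := e.2
        funext i
        exact congrArg (fun v : EE (n + 2) => v i) this
      refine Prod.ext (funext fun i => ?_) (funext fun i => ?_)
      · have := congrFun e1 i
        unfold tv at this
        split_ifs at this
        · exact_mod_cast (mul_left_cancel₀ two_ne_zero this)
        · exact_mod_cast this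
      · have := congrFun e2 i
        unfold sv at this
        split_ifs at this
        · have h3 : (m i : ℝ) = m' i := by linarith
          exact_mod_cast h3
        · exact_mod_cast this

lemma tv_mem {d : ℕ} (k : Fin d → ℤ) : (WithLp.toLp 2 (tv k) : EE d) ∈ TL d := fun i => ⟨k i, rfl⟩
lemma sv_mem {d : ℕ} (k : Fin d → ℤ) : (WithLp.toLp 2 (sv k) : EE d) ∈ SL d := fun i => ⟨k i, rfl⟩

lemma vv_complete (n : ℕ) : (Submodule.span ℂ (Set.range (vv n)))ᗮ = ⊥ := by
  rw [Submodule.eq_bot_iff]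
  intro f hf
  have hf2 : ∀ p, @inner ℂ _ _ (vv n p) f = 0 := by
    intro p
    exact (Submodule.mem_orthogonal _ _).1 hf _ (Submodule.subset_span ⟨p, rfl⟩)
  have h0 := (onb_gab n).complete f (Lp.memLp f) (by
    intro p
    have := hf2 (⟨_, tv_mem p.1⟩, ⟨_, sv_mem p.2⟩)
    rw [L2.inner_def] at this
    rw [← this]
    apply integral_congr_ae
    filter_upwards [(gab_mem n (⟨_, tv_mem p.1⟩, ⟨_, sv_mem p.2⟩)).coeFn_toLp] with x h1
    unfold vv
    rw [h1, RCLike.inner_apply])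
  exact (Lp.eq_zero_iff_ae_eq_zero).2 h0

/-- the Hilbert basis -/
noncomputable def bas (n : ℕ) :
    HilbertBasis (TL (n + 2) × SL (n + 2)) ℂ (Lp ℂ 2 (volume : Measure (EE (n + 2)))) :=
  HilbertBasis.mkOfOrthogonalEqBot (vv_orthonormal n) (vv_complete n)

lemma bas_ae (n : ℕ) (p : TL (n + 2) × SL (n + 2)) : bas n p =ᵐ[volume] gab n p.1.1 p.2.1 := by
  have : bas n p = vv n p := by
    unfold bas
    rw [HilbertBasis.coe_mkOfOrthogonalEqBot]
  rw [this]
  exact (gab_mem n p).coeFn_toLp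

theorem main (d : ℕ) (hd : 2 ≤ d) :
    ∃ (g : EuclideanSpace ℝ (Fin d) → ℂ) (T S : Set (EuclideanSpace ℝ (Fin d)))
      (b : HilbertBasis (T × S) ℂ (Lp ℂ 2 (volume : Measure (EuclideanSpace ℝ (Fin d))))),
      MemLp g 2 volume ∧ HasCompactSupport g ∧ (∀ x, (g x).im = 0) ∧
      T = {x | ∀ i : Fin d, ∃ k : ℤ, x i = if (i : ℕ) = 0 then 2 * (k : ℝ) else (k : ℝ)} ∧
      S = {x | ∀ i : Fin d, ∃ k : ℤ, x i = if (i : ℕ) = 1 then (k : ℝ) / 2 else (k : ℝ)} ∧
      (∀ (t : T) (s : S), b (t, s) =ᵐ[volume] fun x =>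
        g (x - t) * Complex.exp (2 * Real.pi * Complex.I * ((@inner ℝ _ _ (s : EuclideanSpace ℝ (Fin d)) x : ℝ) : ℂ))) ∧
      ∀ (Ω : Set (EuclideanSpace ℝ (Fin d))) (c : ℝ),
        ¬ ∀ᵐ x ∂(volume : Measure (EuclideanSpace ℝ (Fin d))), ‖g x‖ = c * Ω.indicator (fun _ => (1 : ℝ)) x := by
  obtain ⟨n, rfl⟩ := Nat.exists_eq_add_of_le hd
  rw [add_comm 2 n]
  exact ⟨gw n, TL (n + 2), SL (n + 2), bas n, gw_memLp n, gw_compact n, gw_real n, rfl, rfl,
    fun t s => bas_ae n (t, s), gw_not_indicator n⟩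

end Pool.Agent.Helper81.OWN
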