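import Pool.Agent.Helper81.OWN.Onb

set_option autoImplicit false
open MeasureTheory Set ComplexConjugate
open Pool.Agent.Helper71 (chi ex A A_int ex_int ex_add ex_add' conj_ex norm_ex conj_chi chi_shift norm_chi_le
  measurable_chi continuous_ex E2 TT SS g)

namespace Pool.Agent.Helper81.OWN

/-- one dimensional system -/
noncomputable def e1 (p : ℤ × ℤ) (x : ℝ) : ℂ := chi (x - p.1) * ex p.2 x

lemma e1_mul_conj (p q : ℤ × ℤ) (x : ℝ) :
    e1 p x * conj (e1 q x) = chi (x - p.1) * chi (x - q.1) * ex ((p.2 - q.2 : ℤ) : ℝ) x := by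
  unfold e1
  rw [map_mul, conj_chi, conj_ex]
  push_cast
  rw [sub_eq_add_neg ((p.2 : ℤ) : ℝ), ex_add']
  ring

lemma e1_gram (p q : ℤ × ℤ) : ∫ x, e1 p x * conj (e1 q x) = if p.1 = q.1 ∧ p.2 - q.2 = 0 then 1 else 0 := by
  simp only [e1_mul_conj]
  exact A_int p.1 q.1 (p.2 - q.2)

lemma e1_memLp (p : ℤ × ℤ) : MemLp (e1 p) 2 volume := by
  have hm : AEStronglyMeasurable (e1 p) volume := by
    unfold e1
    exact ((measurable_chi.comp (measurable_id.sub_const _)).mul
      (continuous_ex _).measurable).aestronglyMeasurable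
  have hc : HasCompactSupport (e1 p) := by
    refine HasCompactSupport.intro (isCompact_Icc (a := (p.1:ℝ)) (b := (p.1:ℝ)+1)) ?_
    intro x hx
    unfold e1
    rw [chi_shift, indicator_of_notMem (fun h => hx (Ioc_subset_Icc_self h)), zero_mul]
  refine hc.memLp_of_bound hm 1 (Filter.Eventually.of_forall ?_)
  intro x
  unfold e1
  rw [norm_mul, norm_ex, mul_one]
  exact norm_chi_le _

lemma e1_complete (f : ℝ → ℂ) (hf : MemLp f 2 volume) (h : ∀ p, ∫ x, f x * conj (e1 p x) = 0) :
    f =ᵐ[volume] 0 := by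
  have hcell : ∀ k : ℤ, ∀ᵐ x, x ∈ Ioc (k:ℝ) (k+1) → f x = 0 := by
    intro k
    have hk : (k:ℝ) < k + 1 := by linarith
    have hL : MemLp f 2 (volume.restrict (Ioc (k:ℝ) (k+1))) := hf.restrict _
    have hsum := hasSum_sq_fourierCoeffOn hk hL
    have hc : ∀ n, fourierCoeffOn hk f n = 0 := by
      intro n
      rw [fourierCoeffOn_eq_integral]
      have h1 := h (k, n)
      have e2 : ∀ x : ℝ, f x * conj (e1 (k, n) x) =
          (Ioc (k:ℝ) (k+1)).indicator (fun x => ex (-n) x * f x) x := by
        intro x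
        unfold e1
        rw [map_mul, conj_chi, conj_ex, chi_shift]
        by_cases hx : x ∈ Ioc (k:ℝ) (k+1)
        · rw [indicator_of_mem hx, indicator_of_mem hx]; ring
        · rw [indicator_of_notMem hx, indicator_of_notMem hx]; ring
      simp only [e2] at h1
      rw [integral_indicator measurableSet_Ioc] at h1
      rw [intervalIntegral.integral_of_le hk.le]
      have e3 : ∀ x : ℝ, (fourier (-n) ((x : ℝ) : AddCircle ((k:ℝ) + 1 - k)) : ℂ) • f x
          = ex (-n) x * f x := by
        intro x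
        rw [fourier_coe_apply, smul_eq_mul]
        congr 1
        unfold ex
        congr 1
        push_cast
        have : ((k:ℂ) + 1 - k) = 1 := by ring
        rw [this]
        ring
      simp only [e3]
      rw [h1, smul_zero]
    simp only [hc, norm_zero, ne_eq, OfNat.ofNat_ne_zero, not_false_eq_true, zero_pow] at hsum
    have hz := hsum.unique hasSum_zero
    have e5 : ((k:ℝ) + 1 - k) = 1 := by ring
    rw [e5, inv_one, one_smul, intervalIntegral.integral_of_le hk.le] at hz
    rw [integral_eq_zero_iff_of_nonneg (fun t => by positivity)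
      (hL.integrable_norm_pow (by norm_num))] at hz
    rw [Filter.EventuallyEq, ae_restrict_iff' measurableSet_Ioc] at hz
    filter_upwards [hz] with x hx hm
    have := hx hm
    simpa using this
  filter_upwards [ae_all_iff.2 hcell] with x hx
  apply hx (⌈x⌉ - 1)
  push_cast
  exact ⟨by linarith [Int.ceil_lt_add_one x], by linarith [Int.le_ceil x]⟩

theorem onb1 : ONB (volume : Measure ℝ) e1 := by
  refine ⟨e1_memLp, ?_, ?_, e1_complete⟩
  · intro p q hpq
    rw [e1_gram, if_neg]
    rintro ⟨h1, h2⟩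
    exact hpq (Prod.ext h1 (by omega))
  · intro p
    rw [e1_gram, if_pos ⟨rfl, by ring⟩]

/-- translation parameter -/
noncomputable def tv {n : ℕ} (k : Fin n → ℤ) (i : Fin n) : ℝ := if (i : ℕ) = 0 then 2 * (k i : ℝ) else (k i : ℝ)
/-- modulation parameter -/
noncomputable def sv {n : ℕ} (m : Fin n → ℤ) (i : Fin n) : ℝ := if (i : ℕ) = 1 then (m i : ℝ) / 2 else (m i : ℝ)

/-- the window in dimension `n + 2` -/
noncomputable def win : (n : ℕ) → (Fin (n + 2) → ℝ) → ℂ
  | 0, x => g (WithLp.toLp 2 x)
  | n + 1, x => chi (x (Fin.last _)) * win n (fun i => x i.castSucc)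

/-- the system in dimension `n + 2` -/
noncomputable def sys (n : ℕ) (p : (Fin (n + 2) → ℤ) × (Fin (n + 2) → ℤ)) (x : Fin (n + 2) → ℝ) : ℂ :=
  win n (fun i => x i - tv p.1 i) * ∏ i, ex (sv p.2 i) (x i)

lemma onb_zero : ONB (volume : Measure (Fin 2 → ℝ)) (sys 0) := by
  have key : ONB (volume : Measure E2) (fun (p : (Fin 2 → ℤ) × (Fin 2 → ℤ)) (x : E2) =>
      g (x - WithLp.toLp 2 (tv p.1)) * Complex.exp (2 * Real.pi * Complex.I *
        ((@inner ℝ _ _ (WithLp.toLp 2 (sv p.2)) x : ℝ) : ℂ))) := by
    have hT : ∀ k : Fin 2 → ℤ, (WithLp.toLp 2 (tv k) : E2) ∈ TT := by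
      intro k
      exact ⟨k 0, k 1, by simp [tv], by simp [tv]⟩
    have hS : ∀ k : Fin 2 → ℤ, (WithLp.toLp 2 (sv k) : E2) ∈ SS := by
      intro k
      exact ⟨k 0, k 1, by simp [sv], by simp [sv]⟩
    refine ⟨?_, ?_, ?_, ?_⟩
    · intro p
      have h1 : MemLp (fun x : E2 => g (x - WithLp.toLp 2 (tv p.1))) 2 volume :=
        Pool.Agent.Helper71.g_memLp.comp_measurePreserving (measurePreserving_sub_right volume _)
      refine h1.of_le ?_ ?_
      · refine h1.1.mul ?_
        apply Continuous.aestronglyMeasurable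
        fun_prop
      · filter_upwards with x
        rw [norm_mul, Pool.Agent.Helper71.exp_inner, norm_mul, norm_ex, norm_ex, mul_one, mul_one]
    · intro p q hpq
      apply Pool.Agent.Helper71.orth _ (hT _) _ (hS _) _ (hT _) _ (hS _)
      by_contra hc
      push Not at hc
      obtain ⟨h1, h2⟩ := hc
      apply hpq
      have h1' : tv p.1 = tv q.1 := by
        funext i
        exact congrArg (fun v : E2 => v i) h1
      have h2' : sv p.2 = sv q.2 := by
        funext i
        exact congrArg (fun v : E2 => v i) h2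
      refine Prod.ext (funext fun i => ?_) (funext fun i => ?_)
      · have := congrFun h1' i
        unfold tv at this
        split_ifs at this
        · exact_mod_cast (mul_left_cancel₀ two_ne_zero this)
        · exact_mod_cast this
      · have := congrFun h2' i
        unfold sv at this
        split_ifs at this
        · have h3 : (p.2 i : ℝ) = q.2 i := by linarith
          exact_mod_cast h3
        · exact_mod_cast this
    · intro p
      exact Pool.Agent.Helper71.norm_one _ (hT _) _ (hS _)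
    · intro f hf h0
      apply Pool.Agent.Helper71.complete f hf
      rintro t ⟨k, l, h1, h2⟩ s ⟨m, n, h3, h4⟩
      have := h0 (![k, l], ![m, n])
      have ht : (WithLp.toLp 2 (tv ![k, l]) : E2) = t := by
        ext i
        fin_cases i
        · simp [tv, h1]
        · simp [tv, h2]
      have hs : (WithLp.toLp 2 (sv ![m, n]) : E2) = s := by
        ext i
        fin_cases i
        · simp [sv, h3]
        · simp [sv, h4]
      rw [ht, hs] at this
      exact this
  have h2 := key.comp (MeasurableEquiv.toLp 2 (Fin 2 → ℝ)) Pool.Agent.Helper71.mp_toLp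
  have e : sys 0 = fun (p : (Fin 2 → ℤ) × (Fin 2 → ℤ)) (x : Fin 2 → ℝ) =>
      g (MeasurableEquiv.toLp 2 (Fin 2 → ℝ) x - WithLp.toLp 2 (tv p.1)) *
        Complex.exp (2 * Real.pi * Complex.I *
        ((@inner ℝ _ _ (WithLp.toLp 2 (sv p.2)) (MeasurableEquiv.toLp 2 (Fin 2 → ℝ) x) : ℝ) : ℂ)) := by
    funext p x
    unfold sys
    rw [Pool.Agent.Helper71.exp_inner, Fin.prod_univ_two]
    rfl
  rw [e]
  exact h2

/-- index equivalence -/
def idx (n : ℕ) : (Fin (n + 1) → ℤ) × (Fin (n + 1) → ℤ) ≃ (ℤ × ℤ) × ((Fin n → ℤ) × (Fin n → ℤ)) where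
  toFun p := ((p.1 (Fin.last _), p.2 (Fin.last _)), (fun i => p.1 i.castSucc, fun i => p.2 i.castSucc))
  invFun q := (Fin.snoc (α := fun _ => ℤ) q.2.1 q.1.1, Fin.snoc (α := fun _ => ℤ) q.2.2 q.1.2)
  left_inv p := by
    refine Prod.ext (funext fun i => ?_) (funext fun i => ?_)
    · refine Fin.lastCases ?_ (fun j => ?_) i
      · simp
      · simp
    · refine Fin.lastCases ?_ (fun j => ?_) i
      · simp
      · simp
  right_inv q := by
    refine Prod.ext (Prod.ext ?_ ?_) (Prod.ext (funext fun i => ?_) (funext fun i => ?_)) <;> simp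

theorem onb_all (n : ℕ) : ONB (volume : Measure (Fin (n + 2) → ℝ)) (sys n) := by
  induction n with
  | zero => exact onb_zero
  | succ n ih =>
    have h1 := (onb1.prod ih).comp (MeasurableEquiv.piFinSuccAbove (fun _ : Fin (n + 3) => ℝ) (Fin.last _))
      (volume_preserving_piFinSuccAbove (fun _ : Fin (n + 3) => ℝ) (Fin.last _))
    have h2 := h1.reindex (idx (n + 2))
    have hE : ∀ x : Fin (n + 3) → ℝ, MeasurableEquiv.piFinSuccAbove (fun _ : Fin (n + 3) => ℝ)
        (Fin.last _) x = (x (Fin.last _), fun i => x i.castSucc) := by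
      intro x
      refine Prod.ext rfl ?_
      funext i
      change x ((Fin.last _).succAbove i) = x i.castSucc
      rw [Fin.succAbove_last]
    have e : sys (n + 1) = fun (p : (Fin (n + 3) → ℤ) × (Fin (n + 3) → ℤ)) (x : Fin (n + 3) → ℝ) =>
        e1 ((idx (n + 2)) p).1 (MeasurableEquiv.piFinSuccAbove (fun _ : Fin (n + 3) => ℝ) (Fin.last _) x).1 *
        sys n ((idx (n + 2)) p).2 (MeasurableEquiv.piFinSuccAbove (fun _ : Fin (n + 3) => ℝ) (Fin.last _) x).2 := by
      funext p x
      rw [hE]
      unfold sys e1 idx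
      rw [Fin.prod_univ_castSucc]
      have t0 : tv p.1 (Fin.last (n + 2)) = p.1 (Fin.last (n + 2)) := by
        unfold tv
        rw [if_neg (by simp)]
      have s0 : sv p.2 (Fin.last (n + 2)) = p.2 (Fin.last (n + 2)) := by
        unfold sv
        rw [if_neg (by simp)]
      have t1 : ∀ i : Fin (n + 2), tv p.1 i.castSucc = tv (fun i => p.1 i.castSucc) i := fun i => rfl
      have s1 : ∀ i : Fin (n + 2), sv p.2 i.castSucc = sv (fun i => p.2 i.castSucc) i := fun i => rfl
      simp only [win, Equiv.coe_fn_mk, t0, s0, t1, s1]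
      ring
    rw [e]
    exact h2

end Pool.Agent.Helper81.OWN
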