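import Pool.Agent.Helper71.GaborD

set_option autoImplicit false
open MeasureTheory Set ComplexConjugate

namespace Pool.Agent.Helper81.OWN

/-- orthonormal and complete family of square integrable functions -/
structure ONB {α ι : Type*} [MeasurableSpace α] (μ : Measure α) (u : ι → α → ℂ) : Prop where
  mem : ∀ i, MemLp (u i) 2 μ
  orth : ∀ i j, i ≠ j → ∫ x, u i x * conj (u j x) ∂μ = 0
  one : ∀ i, ∫ x, u i x * conj (u i x) ∂μ = 1
  complete : ∀ f : α → ℂ, MemLp f 2 μ → (∀ i, ∫ x, f x * conj (u i x) ∂μ = 0) → f =ᵐ[μ] 0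

variable {α β ι κ : Type*} [MeasurableSpace α] [MeasurableSpace β]

lemma memLp_conj {μ : Measure α} {f : α → ℂ} (hf : MemLp f 2 μ) : MemLp (fun x => conj (f x)) 2 μ := by
  refine hf.of_le (f := fun x => conj (f x)) ?_ ?_
  · exact Complex.continuous_conj.comp_aestronglyMeasurable hf.1
  · filter_upwards with x
    simp

lemma integrable_mul_conj {μ : Measure α} {f g : α → ℂ} (hf : MemLp f 2 μ) (hg : MemLp g 2 μ) :
    Integrable (fun x => f x * conj (g x)) μ := by
  have := (memLp_conj hg).integrable_mul hf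
  refine this.congr ?_
  filter_upwards with x
  simp [mul_comm]

lemma memLp_prod {μ : Measure α} {ν : Measure β} [SFinite μ] [SFinite ν] {f : α → ℂ} {g : β → ℂ}
    (hf : MemLp f 2 μ) (hg : MemLp g 2 ν) : MemLp (fun p : α × β => f p.1 * g p.2) 2 (μ.prod ν) := by
  have hm : AEStronglyMeasurable (fun p : α × β => f p.1 * g p.2) (μ.prod ν) :=
    hf.1.comp_fst.mul hg.1.comp_snd
  rw [memLp_two_iff_integrable_sq_norm hm]
  have := (hf.integrable_norm_pow (p := 2) (by norm_num)).mul_prod
    (hg.integrable_norm_pow (p := 2) (by norm_num))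
  refine this.congr ?_
  filter_upwards with p
  simp [norm_mul, mul_pow]

/-- squared Cauchy Schwarz inequality -/
lemma norm_integral_sq_le {ν : Measure β} {f g : β → ℂ} (hf : MemLp f 2 ν) (hg : MemLp g 2 ν) :
    ‖∫ y, f y * conj (g y) ∂ν‖ ^ 2 ≤ (∫ y, ‖f y‖ ^ 2 ∂ν) * ∫ y, ‖g y‖ ^ 2 ∂ν := by
  have h1 : ‖∫ y, f y * conj (g y) ∂ν‖ ≤ ∫ y, ‖f y‖ * ‖g y‖ ∂ν := by
    refine (norm_integral_le_integral_norm _).trans (le_of_eq ?_)
    congr 1
    funext y
    rw [norm_mul, RCLike.norm_conj]
  have h2 := integral_mul_norm_le_Lp_mul_Lq (μ := ν) (f := f) (g := g) (p := 2) (q := 2)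
    (Real.HolderConjugate.two_two) (by simpa using hf) (by simpa using hg)
  have h3 : (∫ y, ‖f y‖ * ‖g y‖ ∂ν) ^ 2 ≤ (∫ y, ‖f y‖ ^ 2 ∂ν) * ∫ y, ‖g y‖ ^ 2 ∂ν := by
    have e1 : (0:ℝ) ≤ ∫ y, ‖f y‖ ^ 2 ∂ν := integral_nonneg (fun y => by positivity)
    have e2 : (0:ℝ) ≤ ∫ y, ‖g y‖ ^ 2 ∂ν := integral_nonneg (fun y => by positivity)
    have e0 : (0:ℝ) ≤ ∫ y, ‖f y‖ * ‖g y‖ ∂ν := integral_nonneg (fun y => by positivity)
    have h4 := pow_le_pow_left₀ e0 h2 2
    refine h4.trans (le_of_eq ?_)
    rw [mul_pow]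
    simp only [Real.rpow_two]
    rw [← Real.rpow_natCast, ← Real.rpow_natCast, ← Real.rpow_mul e1, ← Real.rpow_mul e2]
    norm_num
  exact (pow_le_pow_left₀ (norm_nonneg _) h1 2).trans h3

/-- tensor products -/
theorem ONB.prod {μ : Measure α} {ν : Measure β} [SFinite μ] [SFinite ν] [Countable κ]
    {u : ι → α → ℂ} {v : κ → β → ℂ} (hu : ONB μ u) (hv : ONB ν v) :
    ONB (μ.prod ν) (fun (p : ι × κ) (z : α × β) => u p.1 z.1 * v p.2 z.2) := by
  have hsplit : ∀ p q : ι × κ, ∫ z, (u p.1 z.1 * v p.2 z.2) * conj (u q.1 z.1 * v q.2 z.2) ∂(μ.prod ν)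
      = (∫ x, u p.1 x * conj (u q.1 x) ∂μ) * ∫ y, v p.2 y * conj (v q.2 y) ∂ν := by
    intro p q
    rw [← integral_prod_mul]
    congr 1
    funext z
    rw [map_mul]
    ring
  refine ⟨fun p => memLp_prod (hu.mem _) (hv.mem _), ?_, ?_, ?_⟩
  · intro p q hpq
    rw [hsplit]
    by_cases h1 : p.1 = q.1
    · have h2 : p.2 ≠ q.2 := fun h => hpq (Prod.ext h1 h)
      rw [hv.orth _ _ h2, mul_zero]
    · rw [hu.orth _ _ h1, zero_mul]
  · intro p
    rw [hsplit, hu.one, hv.one, one_mul]
  · intro f hf h0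
    have hsq : Integrable (fun z => ‖f z‖ ^ 2) (μ.prod ν) := hf.integrable_norm_pow (by norm_num)
    have hsec : ∀ᵐ x ∂μ, MemLp (fun y => f (x, y)) 2 ν := by
      filter_upwards [hsq.prod_right_ae, hf.1.prodMk_left] with x h1 h2
      rw [memLp_two_iff_integrable_sq_norm h2]
      exact h1
    -- coefficients
    have hF : ∀ j : κ, ∀ᵐ x ∂μ, ∫ y, f (x, y) * conj (v j y) ∂ν = 0 := by
      intro j
      have hmeas : AEStronglyMeasurable (fun x => ∫ y, f (x, y) * conj (v j y) ∂ν) μ := by
        have : AEStronglyMeasurable (fun z : α × β => f z * conj (v j z.2)) (μ.prod ν) :=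
          hf.1.mul (memLp_conj (hv.mem j)).1.comp_snd
        exact this.integral_prod_right'
      have hL : MemLp (fun x => ∫ y, f (x, y) * conj (v j y) ∂ν) 2 μ := by
        rw [memLp_two_iff_integrable_sq_norm hmeas]
        have hI : Integrable (fun x => (∫ y, ‖f (x, y)‖ ^ 2 ∂ν) * ∫ y, ‖v j y‖ ^ 2 ∂ν) μ :=
          hsq.integral_prod_left.mul_const _
        refine hI.mono' (hmeas.norm.pow 2) ?_
        filter_upwards [hsec] with x hx
        rw [Real.norm_of_nonneg (by positivity)]
        exact norm_integral_sq_le hx (hv.mem j)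
      refine hu.complete _ hL ?_
      intro i
      have h1 := h0 (i, j)
      rw [integral_prod _ (integrable_mul_conj hf (memLp_prod (hu.mem i) (hv.mem j)))] at h1
      rw [← h1]
      congr 1
      funext x
      rw [← integral_mul_const]
      congr 1
      funext y
      simp only [map_mul]
      ring
    have hall : ∀ᵐ x ∂μ, ∀ᵐ y ∂ν, f (x, y) = 0 := by
      filter_upwards [hsec, ae_all_iff.2 hF] with x h1 h2
      exact hv.complete _ h1 h2
    have hz : ∫ z, ‖f z‖ ^ 2 ∂(μ.prod ν) = 0 := by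
      rw [integral_prod _ hsq]
      apply integral_eq_zero_of_ae
      filter_upwards [hall] with x hx
      apply integral_eq_zero_of_ae
      filter_upwards [hx] with y hy
      simp [hy]
    rw [integral_eq_zero_iff_of_nonneg (fun t => by positivity) hsq] at hz
    filter_upwards [hz] with z hz
    simpa using hz

/-- transport along a measure preserving equivalence -/
theorem ONB.comp {μ : Measure α} {ν : Measure β} {u : ι → β → ℂ} (hu : ONB ν u) (e : α ≃ᵐ β)
    (he : MeasurePreserving e μ ν) : ONB μ (fun i x => u i (e x)) := by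
  refine ⟨fun i => (hu.mem i).comp_measurePreserving he, ?_, ?_, ?_⟩
  · intro i j hij
    rw [← hu.orth i j hij]
    exact he.integral_comp' (fun x => u i x * conj (u j x))
  · intro i
    rw [← hu.one i]
    exact he.integral_comp' (fun x => u i x * conj (u i x))
  · intro f hf h0
    have hes : MeasurePreserving e.symm ν μ := he.symm e
    have h1 : MemLp (fun y => f (e.symm y)) 2 ν := hf.comp_measurePreserving hes
    have h2 := hu.complete _ h1 (by
      intro i
      rw [← h0 i]
      rw [← hes.integral_comp' (fun x => f x * conj (u i (e x)))]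
      simp)
    have h3 := he.quasiMeasurePreserving.ae h2
    filter_upwards [h3] with x hx
    simpa using hx

theorem ONB.reindex {μ : Measure α} {u : ι → α → ℂ} (hu : ONB μ u) (e : κ ≃ ι)
    : ONB μ (fun k x => u (e k) x) := by
  refine ⟨fun i => hu.mem _, ?_, fun i => hu.one _, ?_⟩
  · intro i j hij
    exact hu.orth _ _ (fun h => hij (e.injective h))
  · intro f hf h0
    refine hu.complete f hf ?_
    intro i
    have := h0 (e.symm i)
    simpa using this

end Pool.Agent.Helper81.OWN
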